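import Pool.Agent.LA53.Fam

set_option autoImplicit false

namespace LA69

open Polynomial

/-- coordinates on the span of finitely many vectors of a quotient -/
theorem coords {k A J : Type*} [Field k] [AddCommGroup A] [Module k A] [Finite J]
    (P : Submodule k A) (v : J → A) :
    ∃ (m : ℕ) (f : J → Fin m → k), ∀ z : J →₀ k,
      (z.sum fun j r => r • v j) ∈ P ↔ ∀ i, (z.sum fun j r => r * f j i) = 0 := by
  classical
  set g : J → A ⧸ P := fun j => P.mkQ (v j) with hg
  set W : Submodule k (A ⧸ P) := Submodule.span k (Set.range g) with hW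
  have : FiniteDimensional k W := FiniteDimensional.span_of_finite k (Set.finite_range g)
  have hb := Module.finBasis k W
  have hgW : ∀ j, g j ∈ W := fun j => Submodule.subset_span ⟨j, rfl⟩
  refine ⟨Module.finrank k W, fun j i => hb.repr ⟨g j, hgW j⟩ i, ?_⟩
  intro z
  have h1 : (z.sum fun j r => r • v j) ∈ P ↔ (z.sum fun j r => r • (⟨g j, hgW j⟩ : W)) = 0 := by
    rw [← Submodule.Quotient.mk_eq_zero, ← Subtype.coe_inj]
    have e1 : (Submodule.Quotient.mk (z.sum fun j r => r • v j) : A ⧸ P)
        = z.sum fun j r => r • g j := by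
      have : (Submodule.Quotient.mk (z.sum fun j r => r • v j) : A ⧸ P)
        = P.mkQ (z.sum fun j r => r • v j) := rfl
      rw [this, Finsupp.sum, Finsupp.sum, map_sum]
      simp [hg]
    have e2 : ((z.sum fun j r => r • (⟨g j, hgW j⟩ : W) : W) : A ⧸ P)
        = z.sum fun j r => r • g j := by
      rw [Finsupp.sum, Finsupp.sum, Submodule.coe_sum]
      rfl
    rw [e1, e2]
    rfl
  rw [h1, ← hb.repr.map_eq_zero_iff, Finsupp.ext_iff]
  refine forall_congr' fun i => ?_
  have e3 : (hb.repr (z.sum fun j r => r • (⟨g j, hgW j⟩ : W))) i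
      = z.sum fun j r => r * hb.repr ⟨g j, hgW j⟩ i := by
    rw [Finsupp.sum, Finsupp.sum, map_sum, Finsupp.finsetSum_apply]
    refine Finset.sum_congr rfl fun j _ => ?_
    rw [map_smul, Finsupp.smul_apply, smul_eq_mul]
  rw [e3]
  rfl

theorem rel {k A B I ι : Type*} [Field k] [AddCommGroup A] [Module k A] [Ring B] [Algebra k B]
    [Fintype ι] [DecidableEq I] (P : Submodule k A) (N : Submodule k B) (κ : ι → I) (b : A)
    (u : ι → A) (τ : ι → B[X]) (C : Set k) (hC : C.Infinite)
    (h : ∀ c ∈ C, ∃ z : ι → k, b - ∑ p, z p • u p ∈ P ∧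
      ∀ a : I, (∑ p, if κ p = a then z p • ((τ p).sum fun j v => c ^ j • v) else 0) ∈ N) :
    ∃ q : k[X], q ≠ 0 ∧ ∃ x : ι → k[X],
      (∀ n, q.coeff n • b - ∑ p, (x p).coeff n • u p ∈ P) ∧
      ∀ (a : I) (n : ℕ), (∑ p, if κ p = a then
        ∑ jl ∈ Finset.HasAntidiagonal.antidiagonal n, (x p).coeff jl.1 • (τ p).coeff jl.2 else 0) ∈ N := by
  classical
  -- coordinates in `A / P`
  obtain ⟨m1, f1, hf1⟩ := coords P (fun o : Option ι => o.elim b u)
  -- a common degree bound
  set d := Finset.univ.sup fun p : ι => (τ p).natDegree with hd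
  have hdp : ∀ p, (τ p).natDegree < d + 1 := fun p =>
    Nat.lt_succ_of_le (Finset.le_sup (f := fun p : ι => (τ p).natDegree) (Finset.mem_univ p))
  obtain ⟨m2, f2, hf2⟩ := coords N (fun o : ι × Fin (d + 1) => (τ o.1).coeff o.2)
  -- the two criteria
  have c1 : ∀ (r : k) (z : ι → k), (r • b - ∑ p, z p • u p ∈ P ↔
      ∀ i, r * f1 none i - ∑ p, z p * f1 (some p) i = 0) := by
    intro r z
    have := hf1 (Finsupp.equivFunOnFinite.symm fun o : Option ι => o.elim r fun p => - z p)
    rw [Finsupp.sum_fintype _ _ (by simp)] at this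
    simp only [Fintype.sum_option, Finsupp.equivFunOnFinite_symm_apply_apply, Option.elim,
      neg_smul, Finset.sum_neg_distrib] at this
    rw [← sub_eq_add_neg] at this
    rw [this]
    refine forall_congr' fun i => ?_
    rw [Finsupp.sum_fintype _ _ (by simp)]
    simp only [Fintype.sum_option, Finsupp.equivFunOnFinite_symm_apply_apply, Option.elim,
      neg_mul, Finset.sum_neg_distrib]
    rw [← sub_eq_add_neg]
  have c2 : ∀ (y : ι → Fin (d + 1) → k), ((∑ p, ∑ l, y p l • (τ p).coeff l) ∈ N ↔
      ∀ i, ∑ p, ∑ l, y p l * f2 (p, l) i = 0) := by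
    intro y
    have := hf2 (Finsupp.equivFunOnFinite.symm fun o : ι × Fin (d + 1) => y o.1 o.2)
    rw [Finsupp.sum_fintype _ _ (by simp)] at this
    simp only [Fintype.sum_prod_type, Finsupp.equivFunOnFinite_symm_apply_apply] at this
    rw [this]
    refine forall_congr' fun i => ?_
    rw [Finsupp.sum_fintype _ _ (by simp)]
    simp only [Fintype.sum_prod_type, Finsupp.equivFunOnFinite_symm_apply_apply]
  -- the matrix
  obtain ⟨T, hTl, hTr⟩ : ∃ T : Matrix (Fin m1 ⊕ (Set.range κ) × Fin m2) ι k[X],
      (∀ i p, T (Sum.inl i) p = Polynomial.C (f1 (some p) i)) ∧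
      (∀ a j p, T (Sum.inr (a, j)) p = if κ p = a.1 then
        ∑ l : Fin (d + 1), Polynomial.monomial (l : ℕ) (f2 (p, l) j) else 0) :=
    ⟨fun i p => match i with
      | Sum.inl i => Polynomial.C (f1 (some p) i)
      | Sum.inr (a, j) => if κ p = a.1 then
          ∑ l : Fin (d + 1), Polynomial.monomial (l : ℕ) (f2 (p, l) j) else 0,
      fun _ _ => rfl, fun _ _ _ => rfl⟩
  obtain ⟨bb, hbl, hbr⟩ : ∃ bb : (Fin m1 ⊕ (Set.range κ) × Fin m2) → k[X],
      (∀ i, bb (Sum.inl i) = Polynomial.C (f1 none i)) ∧ (∀ i, bb (Sum.inr i) = 0) :=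
    ⟨fun i => match i with
      | Sum.inl i => Polynomial.C (f1 none i)
      | Sum.inr _ => 0, fun _ => rfl, fun _ => rfl⟩
  have hfin : Fintype (Set.range κ) := Fintype.ofFinite _
  obtain ⟨q, hq, x, hx⟩ := LA53.fam T bb C hC (by
    intro c hc
    obtain ⟨z, hz1, hz2⟩ := h c hc
    refine ⟨z, ?_⟩
    funext i
    rcases i with i | ⟨a, j⟩
    · have h1 := (c1 1 z).1 (by rw [one_smul]; exact hz1) i
      simp only [Matrix.mulVec, dotProduct, Matrix.map_apply, hTl, hbl, Polynomial.eval_C]
      rw [one_mul, sub_eq_zero] at h1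
      rw [h1]
      exact Finset.sum_congr rfl fun p _ => mul_comm _ _
    · have h1 := hz2 a.1
      have e1 : (∑ p, if κ p = a.1 then z p • ((τ p).sum fun j v => c ^ j • v) else 0)
          = ∑ p, ∑ l : Fin (d + 1), (if κ p = a.1 then z p * c ^ (l : ℕ) else 0) • (τ p).coeff l := by
        refine Finset.sum_congr rfl fun p _ => ?_
        split_ifs with hp
        · rw [Polynomial.sum_over_range' _ (by simp) (d + 1) (hdp p), Finset.sum_range,
            Finset.smul_sum]
          exact Finset.sum_congr rfl fun l _ => by rw [smul_smul]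
        · simp
      rw [e1] at h1
      have h2 := (c2 _).1 h1 j
      simp only [Matrix.mulVec, dotProduct, Matrix.map_apply, hTr, hbr, Polynomial.eval_zero]
      rw [← h2]
      refine Finset.sum_congr rfl fun p _ => ?_
      split_ifs with hp
      · rw [Polynomial.eval_finsetSum, Finset.sum_mul]
        refine Finset.sum_congr rfl fun l _ => ?_
        rw [Polynomial.eval_monomial]
        ring
      · simp)
  refine ⟨q, hq, x, ?_, ?_⟩
  · intro n
    rw [c1]
    intro i
    have h1 := congrFun hx (Sum.inl i)
    simp only [Matrix.mulVec, dotProduct, hTl, hbl] at h1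
    have h2 := congrArg (fun f => Polynomial.coeff f n) h1
    simp only [Polynomial.finsetSum_coeff, Polynomial.coeff_C_mul, Polynomial.coeff_mul_C] at h2
    rw [← h2, sub_eq_zero]
    exact Finset.sum_congr rfl fun p _ => mul_comm _ _
  · intro a n
    by_cases ha : a ∈ Set.range κ
    · have e1 : (∑ p, if κ p = a then
          ∑ jl ∈ Finset.HasAntidiagonal.antidiagonal n, (x p).coeff jl.1 • (τ p).coeff jl.2 else 0)
          = ∑ p, ∑ l : Fin (d + 1), (if κ p = a then
            (if (l : ℕ) ≤ n then (x p).coeff (n - l) else 0) else 0) • (τ p).coeff l := by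
        refine Finset.sum_congr rfl fun p _ => ?_
        split_ifs with hp
        · have e2 : (∑ jl ∈ Finset.HasAntidiagonal.antidiagonal n,
              (x p).coeff jl.1 • (τ p).coeff jl.2)
              = ∑ l ∈ Finset.range (n + 1), (x p).coeff (n - l) • (τ p).coeff l := by
            rw [← Finset.Nat.sum_antidiagonal_swap, Finset.Nat.sum_antidiagonal_eq_sum_range_succ_mk]
            rfl
          have e3 : (∑ l : Fin (d + 1), (if (l : ℕ) ≤ n then (x p).coeff (n - l) else 0) •
              (τ p).coeff l) = ∑ l ∈ Finset.range (d + 1),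
              (if l ≤ n then (x p).coeff (n - l) else 0) • (τ p).coeff l :=
            (Finset.sum_range (fun l => (if l ≤ n then (x p).coeff (n - l) else 0) •
              (τ p).coeff l)).symm
          rw [e2, e3]
          have e4 : (∑ l ∈ Finset.range (n + 1), (x p).coeff (n - l) • (τ p).coeff l)
              = ∑ l ∈ Finset.range (n + 1),
              (if l ≤ n then (x p).coeff (n - l) else 0) • (τ p).coeff l := by
            refine Finset.sum_congr rfl fun l hl => ?_
            rw [if_pos (Nat.lt_succ_iff.1 (Finset.mem_range.1 hl))]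
          rw [e4]
          have e5 : (∑ l ∈ Finset.range (n + 1),
              (if l ≤ n then (x p).coeff (n - l) else 0) • (τ p).coeff l)
              = ∑ l ∈ Finset.range (n + d + 2),
              (if l ≤ n then (x p).coeff (n - l) else 0) • (τ p).coeff l := by
            refine Finset.sum_subset (Finset.range_subset_range.2 (by omega)) fun l _ hl => ?_
            rw [if_neg (by rw [Finset.mem_range] at hl; omega), zero_smul]
          have e6 : (∑ l ∈ Finset.range (d + 1),
              (if l ≤ n then (x p).coeff (n - l) else 0) • (τ p).coeff l)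
              = ∑ l ∈ Finset.range (n + d + 2),
              (if l ≤ n then (x p).coeff (n - l) else 0) • (τ p).coeff l := by
            refine Finset.sum_subset (Finset.range_subset_range.2 (by omega)) fun l _ hl => ?_
            have h9 := hdp p
            have h10 : (τ p).coeff l = 0 :=
              Polynomial.coeff_eq_zero_of_natDegree_lt (by rw [Finset.mem_range] at hl; omega)
            rw [h10, smul_zero]
          rw [e5, e6]
        · simp
      rw [e1, c2]
      intro j
      have h1 := congrFun hx (Sum.inr (⟨a, ha⟩, j))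
      simp only [Matrix.mulVec, dotProduct, hTr, hbr, mul_zero] at h1
      have h2 := congrArg (fun f => Polynomial.coeff f n) h1
      simp only [Polynomial.finsetSum_coeff, Polynomial.coeff_zero] at h2
      refine Eq.trans ?_ h2
      refine Finset.sum_congr rfl fun p _ => ?_
      split_ifs with hp
      · rw [Finset.sum_mul, Polynomial.finsetSum_coeff]
        refine Finset.sum_congr rfl fun l _ => ?_
        rw [← Polynomial.C_mul_X_pow_eq_monomial, mul_assoc, Polynomial.coeff_C_mul,
          Polynomial.coeff_X_pow_mul']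
        ring
      · simp
    · have e1 : (∑ p, if κ p = a then
          ∑ jl ∈ Finset.HasAntidiagonal.antidiagonal n, (x p).coeff jl.1 • (τ p).coeff jl.2 else 0) = 0 := by
        refine Finset.sum_eq_zero fun p _ => ?_
        rw [if_neg]
        rintro rfl
        exact ha ⟨p, rfl⟩
      rw [e1]
      exact N.zero_mem

end LA69
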